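import Mathlib

/-!
Block structure of the perturbed Hofstadter sequence.  This file is copied from the library
(`Pool.Graph.R_pool_sql_team_39128cda.H.MP_f18a8d_nt`, files `A` and `B`), with the lemma on
kernels restated for general `ZMod p`.
-/

namespace Pool.Agent.KS6_72.Hof

structure Rec (A B : ℕ → ℕ) : Prop where
  a1 : A 1 = 1
  b1 : B 1 = 1
  rB : ∀ m, 1 ≤ m → 1 ≤ A (m + 1) → A (m + 1) ≤ m + 1 → 1 ≤ B m → B m ≤ m + 1 →
    B (m + 1) = A (m + 2 - A (m + 1)) + A (m + 2 - B m)
  rA : ∀ m, 1 ≤ m → 1 ≤ A m → A m ≤ m → 1 ≤ B m → B m ≤ m →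
    A (m + 1) = B (m + 1 - B m) + B (m + 1 - A m) - 1

/-- positive arch on `[u, v]` -/
structure Pos (A B : ℕ → ℕ) (r a u v : ℕ) : Prop where
  hu : u + r + 1 = 2 * a
  hv : v + r + 1 = 4 * a
  ha : r + 1 ≤ a
  au : A u = a
  av : A v = 2 * a
  sum : ∀ m, u ≤ m → m ≤ v → A m + B m = m + r + 1
  slow : ∀ m, u ≤ m → m < v → A (m + 1) = A m ∨ A (m + 1) = A m + 1
  lt : ∀ m, u < m → m < v → A m < B m

/-- negative arch on `[v, w]` -/
structure Neg (A B : ℕ → ℕ) (r b v w : ℕ) : Prop where
  hv : v + r = b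
  hw : w + r + 2 = 2 * b
  hb : r + 3 ≤ b
  eqv : A v = B (v - 1)
  aw : A w = b
  aw1 : A (w + 1) = b
  sum : ∀ m, v ≤ m + 1 → m ≤ w → A (m + 1) + B m = m + r + 2
  slow : ∀ m, v ≤ m → m ≤ w → A (m + 1) = A m ∨ A (m + 1) = A m + 1
  le : ∀ m, v ≤ m → m ≤ w → B m ≤ A m
  ge : ∀ m, v ≤ m → m ≤ w → b ≤ 2 * B m

theorem mono_of_slow {A : ℕ → ℕ} {u v : ℕ}
    (h : ∀ m, u ≤ m → m < v → A m ≤ A (m + 1)) (i j : ℕ) (hi : u ≤ i) (hij : i ≤ j) (hj : j ≤ v) :
    A i ≤ A j := by
  induction j, hij using Nat.le_induction with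
  | base => exact le_rfl
  | succ j hij ih => exact (ih (by omega)).trans (h j (by omega) (by omega))

theorem neg_of_pos {A B : ℕ → ℕ} (R : Rec A B) {r a u v : ℕ} (P : Pos A B r a u v) :
    ∃ w, Neg A B r (4 * a - 1) v w := by
  obtain ⟨hu, hv, ha, au, av, sum, slow, lt⟩ := P
  have hBmono : ∀ i j, u ≤ i → i ≤ j → j ≤ v → B i ≤ B j := by
    apply mono_of_slow
    intro m h1 h2
    have := sum m h1 h2.le; have := sum (m + 1) (by omega) h2; have := slow m h1 h2
    omega
  have hv1 : B (v - 1) = 2 * a := by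
    have h1 := sum (v - 1) (by omega) (by omega)
    have h2 := slow (v - 1) (by omega) (by omega)
    have h3 := lt (v - 1) (by omega) (by omega)
    rw [show v - 1 + 1 = v by omega] at h2
    omega
  have hBv : B v = 2 * a := by have := sum v (by omega) le_rfl; omega
  have hu1 : B (u + 1) = A (u + 1) + 1 := by
    have h1 := sum (u + 1) (by omega) (by omega)
    have h2 := slow u (by omega) (by omega)
    have h3 := lt (u + 1) (by omega) (by omega)
    omega
  -- machine invariant at time `m + 1`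
  let I : ℕ → Prop := fun m => ∃ x y, A (m + 1) = x + r ∧ B m = y + r ∧ x + y + r = m + 2 ∧
    u + 1 ≤ y ∧ y ≤ x ∧ x ≤ v ∧ (B y = A x + 1 ∨ (B y = A x ∧ A x + B (x - 1) = x + r + 1))
  have step : ∀ m, v ≤ m + 1 → m + 3 ≤ 2 * v + r → I m → I (m + 1) ∧
      (A (m + 1 + 1) = A (m + 1) ∨ A (m + 1 + 1) = A (m + 1) + 1) ∧ B (m + 1) ≤ A (m + 1) := by
    rintro m h1 h2 ⟨x, y, e1, e2, e3, e4, e5, e6, e7⟩
    have r1 := R.rB m (by omega) (by omega) (by omega) (by omega) (by omega)
    rw [show m + 2 - A (m + 1) = y by omega, show m + 2 - B m = x by omega] at r1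
    have sy := sum y (by omega) (by omega)
    have sx := sum x (by omega) (by omega)
    rcases e7 with e7 | ⟨e7, e8⟩
    · have hx : x < v := by
        by_contra hc
        have h3 : x = v := by omega
        have := hBmono y v (by omega) (by omega) le_rfl
        rw [h3] at e7
        omega
      have r2 := R.rA (m + 1) (by omega) (by omega) (by omega) (by omega) (by omega)
      rw [show m + 1 + 1 - B (m + 1) = x by omega, show m + 1 + 1 - A (m + 1) = y by omega] at r2
      refine ⟨⟨x + 1, y, by omega, by omega, by omega, by omega, by omega, by omega, ?_⟩,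
        by omega, by omega⟩
      have := slow x (by omega) hx
      rw [show x + 1 - 1 = x by omega]
      omega
    · have hxy : y < x := by
        by_contra hc
        have h3 : y = x := by omega
        have := lt x (by omega) (by omega)
        rw [h3] at e7
        omega
      have r2 := R.rA (m + 1) (by omega) (by omega) (by omega) (by omega) (by omega)
      rw [show m + 1 + 1 - B (m + 1) = x - 1 by omega,
        show m + 1 + 1 - A (m + 1) = y by omega] at r2
      refine ⟨⟨x, y + 1, by omega, by omega, by omega, by omega, by omega, by omega, ?_⟩,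
        by omega, by omega⟩
      have := slow y (by omega) (by omega)
      have := sum (y + 1) (by omega) (by omega)
      omega
  have hI : ∀ m, v - 1 ≤ m → m + 2 ≤ 2 * v + r → I m := by
    intro m h1
    induction m, h1 using Nat.le_induction with
    | base =>
      intro _
      refine ⟨u + 1, u + 1, ?_, by omega, by omega, by omega, by omega, by omega, Or.inl hu1⟩
      rw [show v - 1 + 1 = v by omega]; omega
    | succ m h1 ih =>
      intro h2
      exact (step m (by omega) (by omega) (ih (by omega))).1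
  refine ⟨2 * v + r - 2, ⟨by omega, by omega, by omega, by omega, ?_, ?_, ?_, ?_, ?_, ?_⟩⟩
  · obtain ⟨x, y, e1, e2, e3, e4, e5, e6, e7⟩ := hI (2 * v + r - 3) (by omega) (by omega)
    rw [show 2 * v + r - 3 + 1 = 2 * v + r - 2 by omega] at e1
    omega
  · obtain ⟨x, y, e1, e2, e3, e4, e5, e6, e7⟩ := hI (2 * v + r - 2) (by omega) (by omega)
    omega
  · intro m h1 h2
    obtain ⟨x, y, e1, e2, e3, e4, e5, e6, e7⟩ := hI m (by omega) (by omega)
    omega
  · intro m h1 h2
    have := (step (m - 1) (by omega) (by omega) (hI _ (by omega) (by omega))).2.1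
    rwa [show m - 1 + 1 = m by omega] at this
  · intro m h1 h2
    have := (step (m - 1) (by omega) (by omega) (hI _ (by omega) (by omega))).2.2
    rwa [show m - 1 + 1 = m by omega] at this
  · intro m h1 h2
    obtain ⟨x, y, e1, e2, e3, e4, e5, e6, e7⟩ := hI m (by omega) (by omega)
    omega

theorem pos_of_neg {A B : ℕ → ℕ} (R : Rec A B) {r b v w : ℕ} (N : Neg A B r b v w) :
    ∃ v', Pos A B (r + 1) b w v' := by
  obtain ⟨hv, hw, hb, eqv, aw, aw1, sum, slow, le, -⟩ := N
  have hAmono : ∀ i j, v ≤ i → i ≤ j → j ≤ w + 1 → A i ≤ A j := by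
    apply mono_of_slow
    intro m h1 h2
    have := slow m h1 (by omega)
    omega
  have hBw : B w = b := by have := sum w (by omega) le_rfl; omega
  have hBw1 : B (w + 1) = b + 1 := by
    have r1 := R.rB w (by omega) (by omega) (by omega) (by omega) (by omega)
    rw [show w + 2 - A (w + 1) = v by omega, show w + 2 - B w = v by omega] at r1
    have := sum (v - 1) (by omega) (by omega)
    rw [show v - 1 + 1 = v by omega] at this
    omega
  let I : ℕ → Prop := fun m => ∃ x y, A m = x + r + 1 ∧ B m = y + r + 1 ∧ x + y + r = m ∧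
    v ≤ x + 1 ∧ x ≤ y ∧ y ≤ w + 1 ∧ (w < m → x < y ∨ x = w + 1) ∧
    (x = w + 1 ∨ B y = A (x + 1) ∨ (B y = A (x + 1) + 1 ∧ A y + B y = y + r + 2))
  have step : ∀ m, w ≤ m → m < 2 * w + 2 + r → I m → I (m + 1) ∧
      (A (m + 1) = A m ∨ A (m + 1) = A m + 1) := by
    rintro m h1 h2 ⟨x, y, e1, e2, e3, e4, e5, e6, e6', e7⟩
    have r2 := R.rA m (by omega) (by omega) (by omega) (by omega) (by omega)
    rw [show m + 1 - B m = x by omega, show m + 1 - A m = y by omega] at r2
    have sx := sum x (by omega) (by omega)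
    rcases e7 with e7 | e7 | ⟨e7, e8⟩
    · omega
    · have hy : y ≤ w := by
        by_contra hc
        have h3 : y = w + 1 := by omega
        have := hAmono (x + 1) (w + 1) (by omega) (by omega) le_rfl
        rw [h3] at e7
        omega
      have sy := sum y (by omega) hy
      have r1 := R.rB m (by omega) (by omega) (by omega) (by omega) (by omega)
      rw [show m + 2 - A (m + 1) = y + 1 by omega, show m + 2 - B m = x + 1 by omega] at r1
      refine ⟨⟨x, y + 1, by omega, by omega, by omega, by omega, by omega, by omega, by omega, ?_⟩,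
        by omega⟩
      rcases Nat.lt_or_ge y w with h | h
      · have := sum (y + 1) (by omega) h
        have := slow (y + 1) (by omega) h
        omega
      · have h3 : y = w := by omega
        rw [h3] at e7 sy ⊢
        omega
    · have hxy : x < y := by
        rcases Nat.lt_or_ge w m with h | h
        · omega
        · have h3 : x + 1 = v := by omega
          have h4 : y = v - 1 := by omega
          rw [h3, h4] at e7
          omega
      have r1 := R.rB m (by omega) (by omega) (by omega) (by omega) (by omega)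
      rw [show m + 2 - A (m + 1) = y by omega, show m + 2 - B m = x + 1 by omega] at r1
      have hne : x + 1 < y ∨ x + 1 = w + 1 := by
        by_contra hc
        have h3 : x + 1 = y := by omega
        have := le y (by omega) (by omega)
        rw [h3] at e7
        omega
      refine ⟨⟨x + 1, y, by omega, by omega, by omega, by omega, by omega, by omega, by omega, ?_⟩,
        by omega⟩
      rcases Nat.lt_or_ge x w with h | h
      · have := slow (x + 1) (by omega) h
        omega
      · omega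
  have hI : ∀ m, w ≤ m → m ≤ 2 * w + 2 + r → I m := by
    intro m h1
    induction m, h1 using Nat.le_induction with
    | base =>
      intro _
      refine ⟨v - 1, v - 1, by omega, by omega, by omega, by omega, by omega, by omega, by omega,
        Or.inr (Or.inl ?_)⟩
      rw [show v - 1 + 1 = v by omega]; omega
    | succ m h1 ih =>
      intro h2
      exact (step m (by omega) (by omega) (ih (by omega))).1
  refine ⟨2 * w + 2 + r, ⟨by omega, by omega, by omega, aw, ?_, ?_, ?_, ?_⟩⟩
  · obtain ⟨x, y, e1, e2, e3, e4, e5, e6, e7, -⟩ := hI (2 * w + 2 + r) (by omega) (by omega)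
    omega
  · intro m h1 h2
    obtain ⟨x, y, e1, e2, e3, e4, e5, e6, e7, -⟩ := hI m (by omega) (by omega)
    omega
  · intro m h1 h2
    exact (step m h1 h2 (hI _ (by omega) (by omega))).2
  · intro m h1 h2
    obtain ⟨x, y, e1, e2, e3, e4, e5, e6, e7, -⟩ := hI m (by omega) (by omega)
    omega






def aa : ℕ → ℕ
  | 0 => 1
  | r + 1 => 4 * aa r - 1

theorem all_pos {A B : ℕ → ℕ} (R : Rec A B) (r : ℕ) : ∃ u v, Pos A B r (aa r) u v := by
  induction r with
  | zero =>
    have a1 := R.a1
    have b1 := R.b1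
    have a2 : A 2 = 1 := by
      have := R.rA 1 le_rfl (by omega) (by omega) (by omega) (by omega)
      simpa [a1, b1] using this
    have b2 : B 2 = 2 := by
      have := R.rB 1 le_rfl (by simp [a2]) (by simp [a2]) (by omega) (by omega)
      simpa [a1, b1, a2] using this
    have a3 : A 3 = 2 := by
      have := R.rA 2 (by omega) (by omega) (by omega) (by omega) (by omega)
      simpa [a1, b1, a2, b2] using this
    have b3 : B 3 = 2 := by
      have := R.rB 2 (by omega) (by simp [a3]) (by simp [a3]) (by omega) (by omega)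
      simpa [a1, b1, a2, b2, a3] using this
    refine ⟨1, 3, ⟨by simp [aa], by simp [aa], by simp [aa], by simp [aa, a1], by simp [aa, a3],
      ?_, ?_, ?_⟩⟩
    · intro m h1 h2
      interval_cases m <;> omega
    · intro m h1 h2
      interval_cases m <;> simp [a1, a2, a3]
    · intro m h1 h2
      interval_cases m; omega
  | succ r ih =>
    obtain ⟨u, v, P⟩ := ih
    obtain ⟨w, N⟩ := neg_of_pos R P
    obtain ⟨v', P'⟩ := pos_of_neg R N
    exact ⟨w, v', P'⟩

theorem bounds {A B : ℕ → ℕ} (R : Rec A B) (m : ℕ) (hm : 1 ≤ m) :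
    1 ≤ A m ∧ A m ≤ m ∧ 1 ≤ B m ∧ B m ≤ m := by
  have key : ∀ r m, 1 ≤ m → m + r + 1 ≤ 2 * aa r → 1 ≤ A m ∧ A m ≤ m ∧ 1 ≤ B m ∧ B m ≤ m := by
    intro r
    induction r with
    | zero =>
      intro m h1 h2
      have : m = 1 := by simp [aa] at h2; omega
      rw [this, R.a1, R.b1]; omega
    | succ r ih =>
      intro m h1 h2
      obtain ⟨u, v, P⟩ := all_pos R r
      obtain ⟨w, N⟩ := neg_of_pos R P
      have hu := P.hu; have hv := P.hv; have ha := P.ha; have hw := N.hw
      simp only [aa] at h2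
      rcases Nat.lt_or_ge u m with h3 | h3
      · rcases Nat.lt_or_ge m v with h4 | h4
        · have := P.sum m h3.le h4.le
          have := P.lt m h3 h4
          have := mono_of_slow (A := A) (u := u) (v := v) (fun j g1 g2 => by
            have := P.slow j g1 g2; omega) u m le_rfl h3.le h4.le
          have := P.au
          omega
        · have := N.sum m (by omega) (by omega)
          have := N.slow m h4 (by omega)
          have := N.le m h4 (by omega)
          have := N.ge m h4 (by omega)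
          omega
      · exact ih m h1 (by omega)
  obtain ⟨u, v, P⟩ := all_pos R m
  have := P.ha
  exact key m m hm (by omega)

/-- halved sequence -/
def hq : ℕ → ℕ
  | 0 => 1
  | 1 => 1
  | 2 => 1
  | n + 3 => hq (min (n + 2) (n + 4 - 2 * hq (n + 2))) + hq (min (n + 2) (n + 4 - 2 * hq (n + 1)))
      - (if n % 2 = 0 then 1 else 0)
decreasing_by all_goals omega

def AA (m : ℕ) : ℕ := hq (2 * m - 1)
def BB (m : ℕ) : ℕ := hq (2 * m)

theorem rec_hq : Rec AA BB := by
  refine ⟨by simp [AA, hq], by simp [BB, hq], ?_, ?_⟩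
  · intro m h1 h2 h3 h4 h5
    unfold AA BB at *
    obtain ⟨k, rfl⟩ : ∃ k, m = k + 1 := ⟨m - 1, by omega⟩
    rw [show 2 * (k + 1 + 1) = (2 * k + 1) + 3 by omega, hq]
    rw [show 2 * (k + 1 + 1) - 1 = 2 * k + 1 + 2 by omega] at h2 h3
    rw [show 2 * k + 1 + 3 - 1 = 2 * k + 1 + 2 by omega]
    rw [show 2 * (k + 1) = 2 * k + 1 + 1 by omega] at h4 h5 ⊢
    rw [if_neg (by omega), Nat.sub_zero]
    congr 2 <;> omega
  · intro m h1 h2 h3 h4 h5
    unfold AA BB at *
    obtain ⟨k, rfl⟩ : ∃ k, m = k + 1 := ⟨m - 1, by omega⟩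
    rw [show 2 * (k + 1 + 1) - 1 = (2 * k) + 3 by omega, hq]
    rw [show 2 * (k + 1) - 1 = 2 * k + 1 by omega] at h2 h3 ⊢
    rw [show 2 * (k + 1) = 2 * k + 2 by omega] at h4 h5 ⊢
    rw [if_pos (by omega)]
    congr 3 <;> omega

theorem hq_bound (n : ℕ) (hn : 1 ≤ n) : 1 ≤ hq n ∧ 2 * hq n ≤ n + 1 := by
  rcases Nat.even_or_odd' n with ⟨m, rfl | rfl⟩
  · have := bounds rec_hq m (by omega)
    unfold BB at this
    omega
  · have := bounds rec_hq (m + 1) (by omega)
    unfold AA at this
    rw [show 2 * (m + 1) - 1 = 2 * m + 1 by omega] at this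
    omega

/-- the recurrence, for integer valued `Q` -/
def IsQ (Q : ℕ → ℤ) : Prop :=
  Q 1 = 1 ∧ Q 2 = 1 ∧ ∀ n : ℕ, 3 ≤ n →
    Q n = Q ((n : ℤ) - Q (n - 1)).toNat + Q ((n : ℤ) - Q (n - 2)).toNat + (-1) ^ n

theorem hq_step (n : ℕ) : (2 * hq (n + 3) - 1 : ℤ) =
    (2 * hq (n + 4 - 2 * hq (n + 2)) - 1 : ℤ) + (2 * hq (n + 4 - 2 * hq (n + 1)) - 1 : ℤ)
      + (-1) ^ (n + 3) := by
  have h1 := hq_bound (n + 2) (by omega)
  have h2 := hq_bound (n + 1) (by omega)
  have h3 := hq_bound (n + 4 - 2 * hq (n + 2)) (by omega)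
  rw [hq, min_eq_right (by omega), min_eq_right (by omega)]
  rcases Nat.even_or_odd' n with ⟨m, rfl | rfl⟩
  · rw [if_pos (by omega), Odd.neg_one_pow ⟨m + 1, by omega⟩]
    omega
  · rw [if_neg (by omega), Even.neg_one_pow ⟨m + 2, by omega⟩]
    omega

theorem isQ_hq : IsQ (fun n => 2 * (hq n : ℤ) - 1) := by
  refine ⟨by simp [hq], by simp [hq], ?_⟩
  intro n hn
  obtain ⟨k, rfl⟩ : ∃ k, n = k + 3 := ⟨n - 3, by omega⟩
  have h1 := hq_bound (k + 2) (by omega)
  have h2 := hq_bound (k + 1) (by omega)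
  simp only [show k + 3 - 1 = k + 2 by omega, show k + 3 - 2 = k + 1 by omega]
  rw [show (((k + 3 : ℕ) : ℤ) - (2 * (hq (k + 2) : ℤ) - 1)).toNat = k + 4 - 2 * hq (k + 2) by omega,
    show (((k + 3 : ℕ) : ℤ) - (2 * (hq (k + 1) : ℤ) - 1)).toNat = k + 4 - 2 * hq (k + 1) by omega]
  exact hq_step k

theorem eq_hq {Q : ℕ → ℤ} (h : IsQ Q) (n : ℕ) (hn : 1 ≤ n) : Q n = 2 * (hq n : ℤ) - 1 := by
  induction n using Nat.strong_induction_on with
  | _ n ih =>
    rcases Nat.lt_or_ge n 3 with h3 | h3
    · interval_cases n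
      · simp [h.1, hq]
      · simp [h.2.1, hq]
    · obtain ⟨k, rfl⟩ : ∃ k, n = k + 3 := ⟨n - 3, by omega⟩
      have h1 := hq_bound (k + 2) (by omega)
      have h2 := hq_bound (k + 1) (by omega)
      rw [h.2.2 _ h3]
      simp only [show k + 3 - 1 = k + 2 by omega, show k + 3 - 2 = k + 1 by omega]
      rw [ih (k + 2) (by omega) (by omega), ih (k + 1) (by omega) (by omega),
        show (((k + 3 : ℕ) : ℤ) - (2 * (hq (k + 2) : ℤ) - 1)).toNat = k + 4 - 2 * hq (k + 2) by omega,
        show (((k + 3 : ℕ) : ℤ) - (2 * (hq (k + 1) : ℤ) - 1)).toNat = k + 4 - 2 * hq (k + 1) by omega,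
        ih _ (by omega) (by omega), ih _ (by omega) (by omega)]
      exact (hq_step k).symm

/-- `D k = (22...2)` in base four -/
def D : ℕ → ℕ
  | 0 => 0
  | k + 1 => 4 * D k + 2

theorem D_aa (k : ℕ) : D k + 1 = aa k := by
  induction k with
  | zero => simp [D, aa]
  | succ k ih => simp only [D, aa]; omega

theorem D_add (i j : ℕ) : D (i + j) = 4 ^ i * D j + D i := by
  induction i with
  | zero => simp [D]
  | succ i ih => rw [show i + 1 + j = (i + j) + 1 by omega, D, D, ih]; ring

theorem D_lt (i : ℕ) : D i < 4 ^ i := by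
  induction i with
  | zero => simp [D]
  | succ i ih => rw [D, pow_succ]; omega

theorem D_ge (i : ℕ) (hi : 2 ≤ i) : 4 * i ≤ D i := by
  induction i, hi using Nat.le_induction with
  | base => simp [D]
  | succ i hi ih => rw [D]; omega

end Pool.Agent.KS6_72.Hof
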