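import Mathlib

/-!
# Sum index and difference index of bipartite graphs

The graphs `Gr d R` and the bounds `sm ≤ d + 1`, `df ≥ d` for them are taken from the starting
library (MP_ecebd1_co, `GridGraphs`).  New are the bound `df ≤ sm - 1` for all bipartite graphs
with `sm ≥ 2`, and the realisation of all pairs `(sm, df)` that are not excluded.
-/

set_option autoImplicit false

namespace Pool.Agent.KS6_72.SumDiff

open Finset

/-- The set of edge sums of the labelling `f` of `G`. -/
def sumSet {V : Type} (G : SimpleGraph V) (f : V → ℤ) : Set ℤ :=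
  {s | ∃ u v, G.Adj u v ∧ s = f u + f v}

/-- The set of edge differences of the labelling `f` of `G`. -/
def diffSet {V : Type} (G : SimpleGraph V) (f : V → ℤ) : Set ℤ :=
  {s | ∃ u v, G.Adj u v ∧ s = |f u - f v|}

/-- The sum index. -/
noncomputable def sm {V : Type} (G : SimpleGraph V) : ℕ :=
  sInf {t | ∃ f : V → ℤ, Function.Injective f ∧ (sumSet G f).ncard = t}

/-- The difference index. -/
noncomputable def df {V : Type} (G : SimpleGraph V) : ℕ :=
  sInf {t | ∃ f : V → ℤ, Function.Injective f ∧ (diffSet G f).ncard = t}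

/-! ### The graph -/

/-- `w = v` or `w = v + e_i`. -/
def Rel {d R : ℕ} (v w : Fin d → Fin R) : Prop :=
  w = v ∨ ∃ i, (w i).val = (v i).val + 1 ∧ ∀ j, j ≠ i → w j = v j

def Gr (d R : ℕ) : SimpleGraph ((Fin d → Fin R) × Bool) where
  Adj x y := (x.2 = false ∧ y.2 = true ∧ Rel x.1 y.1) ∨ (x.2 = true ∧ y.2 = false ∧ Rel y.1 x.1)
  symm := ⟨by
    rintro x y (⟨h1, h2, h3⟩ | ⟨h1, h2, h3⟩)
    · exact Or.inr ⟨h2, h1, h3⟩
    · exact Or.inl ⟨h2, h1, h3⟩⟩
  loopless := ⟨by
    rintro x (⟨h1, h2, h3⟩ | ⟨h1, h2, h3⟩)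
    · rw [h1] at h2; exact Bool.noConfusion h2
    · rw [h1] at h2; exact Bool.noConfusion h2⟩

noncomputable def phi {d R : ℕ} (v : Fin d → Fin R) : ℤ := ((finFunctionFinEquiv v : Fin (R ^ d)) : ℕ)

lemma phi_eq {d R : ℕ} (v : Fin d → Fin R) : phi v = ∑ i, ((v i).val : ℤ) * (R : ℤ) ^ i.val := by
  unfold phi
  rw [finFunctionFinEquiv_apply]
  push_cast
  rfl

lemma phi_inj {d R : ℕ} {v w : Fin d → Fin R} (h : phi v = phi w) : v = w := by
  unfold phi at h
  have h1 : ((finFunctionFinEquiv v : Fin (R ^ d)) : ℕ) = (finFunctionFinEquiv w : Fin (R ^ d)) := by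
    exact_mod_cast h
  exact finFunctionFinEquiv.injective (Fin.ext h1)

lemma phi_nonneg {d R : ℕ} (v : Fin d → Fin R) : 0 ≤ phi v := by
  unfold phi; positivity

lemma phi_step {d R : ℕ} {v w : Fin d → Fin R} {i : Fin d} (h1 : (w i).val = (v i).val + 1)
    (h2 : ∀ j, j ≠ i → w j = v j) : phi w = phi v + (R : ℤ) ^ i.val := by
  rw [phi_eq, phi_eq, ← Finset.add_sum_erase _ _ (mem_univ i), ← Finset.add_sum_erase univ
    (fun i => ((v i).val : ℤ) * (R : ℤ) ^ i.val) (mem_univ i)]
  have : ∑ x ∈ univ.erase i, ((w x).val : ℤ) * (R : ℤ) ^ x.val =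
      ∑ x ∈ univ.erase i, ((v x).val : ℤ) * (R : ℤ) ^ x.val := by
    apply Finset.sum_congr rfl
    intro j hj
    rw [h2 j (Finset.ne_of_mem_erase hj)]
  rw [this, h1]
  push_cast
  ring

noncomputable def lab {d R : ℕ} (x : (Fin d → Fin R) × Bool) : ℤ :=
  if x.2 then phi x.1 else - phi x.1 - 1

lemma lab_inj {d R : ℕ} : Function.Injective (lab (d := d) (R := R)) := by
  rintro ⟨v, a⟩ ⟨w, b⟩ h
  have h1 := phi_nonneg v
  have h2 := phi_nonneg w
  cases a <;> cases b <;> simp only [lab, if_true, Bool.false_eq_true, if_false] at h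
  · rw [phi_inj (by linarith : phi v = phi w)]
  · exfalso; linarith
  · exfalso; linarith
  · rw [phi_inj h]

lemma sm_le (d R : ℕ) : sm (Gr d R) ≤ d + 1 := by
  have h1 : sm (Gr d R) ≤ (sumSet (Gr d R) lab).ncard := Nat.sInf_le ⟨lab, lab_inj, rfl⟩
  refine h1.trans ?_
  have h2 : sumSet (Gr d R) lab ⊆
      ((insert (-1 : ℤ) ((univ : Finset (Fin d)).image (fun i => (R : ℤ) ^ i.val - 1)) : Finset ℤ) : Set ℤ) := by
    rintro s ⟨⟨v, a⟩, ⟨w, b⟩, h, rfl⟩
    rw [Finset.coe_insert, Finset.coe_image]
    have key : ∀ v w : Fin d → Fin R, Rel v w → (phi w - phi v - 1 = -1 ∨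
        ∃ i : Fin d, phi w - phi v - 1 = (R : ℤ) ^ i.val - 1) := by
      rintro v w (rfl | ⟨i, h1, h2⟩)
      · left; ring
      · right; exact ⟨i, by rw [phi_step h1 h2]; ring⟩
    rcases h with ⟨h1, h2, h3⟩ | ⟨h1, h2, h3⟩
    · simp only at h1 h2 h3
      subst h1; subst h2
      have : lab (v, false) + lab (w, true) = phi w - phi v - 1 := by
        simp [lab]; ring
      rw [this]
      rcases key v w h3 with h | ⟨i, h⟩
      · left; exact h
      · right; exact ⟨i, by simp, h.symm⟩
    · simp only at h1 h2 h3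
      subst h1; subst h2
      have : lab (v, true) + lab (w, false) = phi v - phi w - 1 := by
        simp [lab]; ring
      rw [this]
      rcases key w v h3 with h | ⟨i, h⟩
      · left; exact h
      · right; exact ⟨i, by simp, h.symm⟩
  calc (sumSet (Gr d R) lab).ncard ≤ _ := Set.ncard_le_ncard h2 (Finset.finite_toSet _)
    _ = _ := Set.ncard_coe_finset _
    _ ≤ ((univ : Finset (Fin d)).image (fun i => (R : ℤ) ^ i.val - 1)).card + 1 := Finset.card_insert_le _ _
    _ ≤ (univ : Finset (Fin d)).card + 1 := Nat.add_le_add_right Finset.card_image_le _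
    _ = d + 1 := by simp

/-! ### Lower bound for the difference index -/

/-- labels reachable by `ℓ` steps -/
def Reach (D : Finset ℤ) (f0 : ℤ) (l : ℕ) : Set ℤ :=
  {x | ∃ n : ℤ → ℤ, (∀ a, |n a| ≤ l) ∧ x = f0 + ∑ a ∈ D, n a * a}

lemma reach_step {D : Finset ℤ} {f0 x y : ℤ} {l : ℕ} (hx : x ∈ Reach D f0 l) (h : |x - y| ∈ D) :
    y ∈ Reach D f0 (l + 1) := by
  classical
  obtain ⟨n, hn, rfl⟩ := hx
  set x := f0 + ∑ a ∈ D, n a * a with hxdef
  rcases le_total 0 (x - y) with h0 | h0
  · -- y = x - |x-y|
    refine ⟨fun a => n a - (if a = |x - y| then 1 else 0), ?_, ?_⟩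
    · intro a
      have := hn a
      rw [abs_le] at this ⊢
      push_cast
      split_ifs <;> constructor <;> linarith
    · have h1 : ∑ a ∈ D, (n a - (if a = |x - y| then 1 else 0)) * a = ∑ a ∈ D, n a * a - |x - y| := by
        simp only [sub_mul, ite_mul, one_mul, zero_mul, Finset.sum_sub_distrib]
        rw [Finset.sum_ite_eq' D |x - y| (fun a => a), if_pos h]
      rw [h1, abs_of_nonneg h0]
      linarith
  · refine ⟨fun a => n a + (if a = |x - y| then 1 else 0), ?_, ?_⟩
    · intro a
      have := hn a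
      rw [abs_le] at this ⊢
      push_cast
      split_ifs <;> constructor <;> linarith
    · have h1 : ∑ a ∈ D, (n a + (if a = |x - y| then 1 else 0)) * a = ∑ a ∈ D, n a * a + |x - y| := by
        simp only [add_mul, ite_mul, one_mul, zero_mul, Finset.sum_add_distrib]
        rw [Finset.sum_ite_eq' D |x - y| (fun a => a), if_pos h]
      rw [h1, abs_of_nonpos h0]
      linarith

lemma reach_mono {D : Finset ℤ} {f0 x : ℤ} {l l' : ℕ} (h : l ≤ l') (hx : x ∈ Reach D f0 l) :
    x ∈ Reach D f0 l' := by
  obtain ⟨n, hn, hx⟩ := hx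
  exact ⟨n, fun a => (hn a).trans (by exact_mod_cast h), hx⟩

lemma reach_finite_card (D : Finset ℤ) (f0 : ℤ) (l : ℕ) (S : Finset ℤ) (hS : ∀ x ∈ S, x ∈ Reach D f0 l) :
    S.card ≤ (2 * l + 1) ^ D.card := by
  classical
  have h1 : S ⊆ (Fintype.piFinset (fun _ : D => Finset.Icc (-(l : ℤ)) l)).image
      (fun n => f0 + ∑ a : D, n a * a.1) := by
    intro x hx
    obtain ⟨n, hn, hx⟩ := hS x hx
    rw [mem_image]
    refine ⟨fun a => n a.1, ?_, ?_⟩
    · rw [Fintype.mem_piFinset]
      intro a
      rw [mem_Icc]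
      exact abs_le.mp (hn a)
    · rw [hx, ← Finset.sum_coe_sort D (fun a => n a * a)]
  calc S.card ≤ _ := Finset.card_le_card h1
    _ ≤ (Fintype.piFinset (fun _ : D => Finset.Icc (-(l : ℤ)) l)).card := Finset.card_image_le
    _ = (2 * l + 1) ^ D.card := by
      rw [Fintype.card_piFinset]
      simp only [Int.card_Icc, Finset.prod_const, card_univ, Fintype.card_coe]
      congr 1
      omega

lemma lower {d R : ℕ} (hd : 1 ≤ d) (hR : 1 ≤ R) (f : (Fin d → Fin R) × Bool → ℤ)
    (hf : Function.Injective f) : 2 * R ^ d ≤ (7 * d * R) ^ (diffSet (Gr d R) f).ncard := by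
  classical
  have hfin : (diffSet (Gr d R) f).Finite := by
    apply Set.Finite.subset (Set.finite_range (fun p : ((Fin d → Fin R) × Bool) × ((Fin d → Fin R) × Bool) =>
      |f p.1 - f p.2|))
    rintro s ⟨u, v, -, rfl⟩
    exact ⟨(u, v), rfl⟩
  set D := hfin.toFinset with hD
  have hmem : ∀ u v, (Gr d R).Adj u v → |f u - f v| ∈ D := by
    intro u v h
    rw [hD, Set.Finite.mem_toFinset]
    exact ⟨u, v, h, rfl⟩
  have hzero : 0 < R := hR
  let o : Fin d → Fin R := fun _ => ⟨0, hzero⟩
  -- labels of `(v, false)`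
  have hreach : ∀ s : ℕ, ∀ v : Fin d → Fin R, ∑ i, (v i).val = s →
      f (v, false) ∈ Reach D (f (o, false)) (2 * s) := by
    intro s
    induction s with
    | zero =>
      intro v hv
      rw [Finset.sum_eq_zero_iff] at hv
      have : v = o := by
        funext i
        exact Fin.ext (hv i (mem_univ i))
      subst this
      exact ⟨fun _ => 0, fun a => by simp, by simp⟩
    | succ s ih =>
      intro v hv
      have hex : ∃ i, (v i).val ≠ 0 := by
        by_contra hcon
        push Not at hcon
        rw [Finset.sum_eq_zero (fun i _ => hcon i)] at hv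
        omega
      obtain ⟨i, hi⟩ := hex
      let v' : Fin d → Fin R := Function.update v i ⟨(v i).val - 1, by have := (v i).2; omega⟩
      have hv'i : (v' i).val = (v i).val - 1 := by simp [v']
      have hv'j : ∀ j, j ≠ i → v' j = v j := fun j hj => by simp [v', hj]
      have hsum : ∑ j, (v' j).val = s := by
        rw [← Finset.add_sum_erase _ _ (mem_univ i)] at hv ⊢
        have : ∑ x ∈ univ.erase i, (v' x).val = ∑ x ∈ univ.erase i, (v x).val := by
          apply Finset.sum_congr rfl
          intro j hj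
          rw [hv'j j (Finset.ne_of_mem_erase hj)]
        rw [this, hv'i]
        omega
      have h1 := ih v' hsum
      have h2 : (Gr d R).Adj (v', false) (v, true) := by
        left
        refine ⟨rfl, rfl, Or.inr ⟨i, ?_, fun j hj => (hv'j j hj).symm⟩⟩
        change (v i).val = (v' i).val + 1
        rw [hv'i]; omega
      have h3 : (Gr d R).Adj (v, true) (v, false) := Or.inr ⟨rfl, rfl, Or.inl rfl⟩
      exact reach_step (reach_step h1 (hmem _ _ h2)) (hmem _ _ h3)
  have hsumle : ∀ v : Fin d → Fin R, ∑ i, (v i).val ≤ d * R := by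
    intro v
    calc ∑ i, (v i).val ≤ ∑ _i : Fin d, R := Finset.sum_le_sum (fun i _ => (v i).2.le)
      _ = d * R := by simp
  have hall : ∀ x, f x ∈ Reach D (f (o, false)) (2 * (d * R) + 1) := by
    rintro ⟨v, b⟩
    have h1 := hreach _ v rfl
    cases b
    · exact reach_mono (by have := hsumle v; omega) h1
    · have h3 : (Gr d R).Adj (v, false) (v, true) := Or.inl ⟨rfl, rfl, Or.inl rfl⟩
      exact reach_mono (by have := hsumle v; omega) (reach_step h1 (hmem _ _ h3))
  have hcard := reach_finite_card D (f (o, false)) (2 * (d * R) + 1) (univ.image f) (by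
    intro x hx
    rw [mem_image] at hx
    obtain ⟨y, -, rfl⟩ := hx
    exact hall y)
  rw [Finset.card_image_of_injective _ hf] at hcard
  have hV : (univ : Finset ((Fin d → Fin R) × Bool)).card = 2 * R ^ d := by
    simp; ring
  rw [hV] at hcard
  have hDc : D.card = (diffSet (Gr d R) f).ncard := by
    rw [Set.ncard_eq_toFinset_card _ hfin]
  rw [hDc] at hcard
  refine hcard.trans (Nat.pow_le_pow_left ?_ _)
  have : 1 ≤ d * R := Nat.mul_pos hd hR
  nlinarith

lemma df_ge {d : ℕ} (hd : 1 ≤ d) : d ≤ df (Gr d ((7 * d) ^ d)) := by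
  have hR : 1 ≤ (7 * d) ^ d := Nat.one_le_pow _ _ (by omega)
  set R := (7 * d) ^ d with hRdef
  apply le_csInf
  · exact ⟨_, lab, lab_inj, rfl⟩
  · rintro t ⟨f, hf, rfl⟩
    have h1 := lower hd hR f hf
    by_contra hcon
    push Not at hcon
    have h2 : (7 * d * R) ^ (diffSet (Gr d R) f).ncard ≤ (7 * d * R) ^ (d - 1) :=
      Nat.pow_le_pow_right (Nat.mul_pos (by omega) hR) (by omega)
    have h3 : (7 * d * R) ^ (d - 1) ≤ R ^ d := by
      rw [mul_pow]
      calc (7 * d) ^ (d - 1) * R ^ (d - 1) ≤ R * R ^ (d - 1) := by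
            apply Nat.mul_le_mul_right
            rw [hRdef]
            exact Nat.pow_le_pow_right (by omega) (by omega)
        _ = R ^ d := by
            rw [← pow_succ']
            congr 1
            omega
    have h4 : 0 < R ^ d := Nat.pow_pos hR
    omega


/-! ### General facts -/

section general

variable {V : Type} [Fintype V]

lemma sumSet_finite (G : SimpleGraph V) (f : V → ℤ) : (sumSet G f).Finite := by
  apply Set.Finite.subset (Set.finite_range (fun p : V × V => f p.1 + f p.2))
  rintro s ⟨u, v, -, rfl⟩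
  exact ⟨(u, v), rfl⟩

lemma diffSet_finite (G : SimpleGraph V) (f : V → ℤ) : (diffSet G f).Finite := by
  apply Set.Finite.subset (Set.finite_range (fun p : V × V => |f p.1 - f p.2|))
  rintro s ⟨u, v, -, rfl⟩
  exact ⟨(u, v), rfl⟩

lemma sm_le_of (G : SimpleGraph V) (f : V → ℤ) (hf : Function.Injective f) (S : Finset ℤ)
    (h : ∀ u v, G.Adj u v → f u + f v ∈ S) : sm G ≤ S.card := by
  have h1 : sm G ≤ (sumSet G f).ncard := Nat.sInf_le ⟨f, hf, rfl⟩
  refine h1.trans ?_
  rw [← Set.ncard_coe_finset]
  apply Set.ncard_le_ncard _ (Finset.finite_toSet _)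
  rintro s ⟨u, v, huv, rfl⟩
  exact h u v huv

lemma df_le_of (G : SimpleGraph V) (f : V → ℤ) (hf : Function.Injective f) (S : Finset ℤ)
    (h : ∀ u v, G.Adj u v → |f u - f v| ∈ S) : df G ≤ S.card := by
  have h1 : df G ≤ (diffSet G f).ncard := Nat.sInf_le ⟨f, hf, rfl⟩
  refine h1.trans ?_
  rw [← Set.ncard_coe_finset]
  apply Set.ncard_le_ncard _ (Finset.finite_toSet _)
  rintro s ⟨u, v, huv, rfl⟩
  exact h u v huv

lemma exists_inj : ∃ f : V → ℤ, Function.Injective f := by
  classical
  refine ⟨fun v => ((Fintype.equivFin V v : ℕ) : ℤ), ?_⟩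
  intro u v h
  have h1 : (Fintype.equivFin V u : ℕ) = (Fintype.equivFin V v : ℕ) := by
    dsimp only at h
    exact_mod_cast h
  exact (Fintype.equivFin V).injective (Fin.ext h1)

lemma exists_sm (G : SimpleGraph V) : ∃ f : V → ℤ, Function.Injective f ∧ ∃ S : Finset ℤ,
    S.card = sm G ∧ ∀ u v, G.Adj u v → f u + f v ∈ S := by
  have hne : {t | ∃ f : V → ℤ, Function.Injective f ∧ (sumSet G f).ncard = t}.Nonempty := by
    obtain ⟨f, hf⟩ := exists_inj (V := V)
    exact ⟨_, f, hf, rfl⟩
  obtain ⟨f, hf, h⟩ := Nat.sInf_mem hne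
  refine ⟨f, hf, (sumSet_finite G f).toFinset, ?_, ?_⟩
  · rw [← Set.ncard_eq_toFinset_card _ (sumSet_finite G f), h]; rfl
  · intro u v huv
    rw [Set.Finite.mem_toFinset]
    exact ⟨u, v, huv, rfl⟩

lemma exists_df (G : SimpleGraph V) : ∃ f : V → ℤ, Function.Injective f ∧ ∃ S : Finset ℤ,
    S.card = df G ∧ (∀ δ ∈ S, 0 < δ) ∧ ∀ u v, G.Adj u v → |f u - f v| ∈ S := by
  have hne : {t | ∃ f : V → ℤ, Function.Injective f ∧ (diffSet G f).ncard = t}.Nonempty := by
    obtain ⟨f, hf⟩ := exists_inj (V := V)
    exact ⟨_, f, hf, rfl⟩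
  obtain ⟨f, hf, h⟩ := Nat.sInf_mem hne
  refine ⟨f, hf, (diffSet_finite G f).toFinset, ?_, ?_, ?_⟩
  · rw [← Set.ncard_eq_toFinset_card _ (diffSet_finite G f), h]; rfl
  · intro δ hδ
    rw [Set.Finite.mem_toFinset] at hδ
    obtain ⟨u, v, huv, rfl⟩ := hδ
    rw [abs_pos, sub_ne_zero]
    exact fun e => huv.ne (hf e)
  · intro u v huv
    rw [Set.Finite.mem_toFinset]
    exact ⟨u, v, huv, rfl⟩

lemma le_sm_of (G : SimpleGraph V) (n : ℕ)
    (h : ∀ f : V → ℤ, Function.Injective f → n ≤ (sumSet G f).ncard) : n ≤ sm G := by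
  apply le_csInf
  · obtain ⟨f, hf⟩ := exists_inj (V := V)
    exact ⟨_, f, hf, rfl⟩
  · rintro t ⟨f, hf, rfl⟩
    exact h f hf

lemma le_df_of (G : SimpleGraph V) (n : ℕ)
    (h : ∀ f : V → ℤ, Function.Injective f → n ≤ (diffSet G f).ncard) : n ≤ df G := by
  apply le_csInf
  · obtain ⟨f, hf⟩ := exists_inj (V := V)
    exact ⟨_, f, hf, rfl⟩
  · rintro t ⟨f, hf, rfl⟩
    exact h f hf

lemma one_le_sm (G : SimpleGraph V) (hG : ∃ u v, G.Adj u v) : 1 ≤ sm G := by
  apply le_sm_of
  intro f _
  obtain ⟨u, v, huv⟩ := hG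
  rw [Nat.one_le_iff_ne_zero]
  exact Set.ncard_ne_zero_of_mem (a := f u + f v) ⟨u, v, huv, rfl⟩ (sumSet_finite G f)

lemma one_le_df (G : SimpleGraph V) (hG : ∃ u v, G.Adj u v) : 1 ≤ df G := by
  apply le_df_of
  intro f _
  obtain ⟨u, v, huv⟩ := hG
  rw [Nat.one_le_iff_ne_zero]
  exact Set.ncard_ne_zero_of_mem (a := |f u - f v|) ⟨u, v, huv, rfl⟩ (diffSet_finite G f)

lemma exists_bound (f : V → ℤ) : ∃ M : ℤ, 0 ≤ M ∧ ∀ v, -M ≤ f v ∧ f v ≤ M := by
  classical
  refine ⟨∑ v, |f v|, Finset.sum_nonneg fun v _ => abs_nonneg _, fun v => ?_⟩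
  have h : |f v| ≤ ∑ v, |f v| :=
    Finset.single_le_sum (f := fun v => |f v|) (fun v _ => abs_nonneg _) (mem_univ v)
  exact abs_le.1 h

lemma exists_boundF (S : Finset ℤ) : ∃ M : ℤ, 0 ≤ M ∧ ∀ s ∈ S, -M ≤ s ∧ s ≤ M := by
  classical
  refine ⟨∑ s ∈ S, |s|, Finset.sum_nonneg fun v _ => abs_nonneg _, fun v hv => ?_⟩
  have h : |v| ≤ ∑ s ∈ S, |s| :=
    Finset.single_le_sum (f := fun s => |s|) (fun v _ => abs_nonneg _) hv
  exact abs_le.1 h

/-! ### Bipartite graphs -/

/-- `sm ≤ 2 df` -/
theorem sm_le_two_df (G : SimpleGraph V) (c : V → Bool) (hc : ∀ u v, G.Adj u v → c u ≠ c v) :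
    sm G ≤ 2 * df G := by
  classical
  obtain ⟨f, hf, D, hD, -, hDm⟩ := exists_df G
  obtain ⟨M, hM0, hM⟩ := exists_bound f
  have h1 : sm G ≤ (D ∪ D.image (fun x => -x)).card := by
    apply sm_le_of G (fun v => if c v then f v + (M + 1) else - f v - (M + 1))
    · intro u v huv
      apply hf
      have hu := hM u
      have hv := hM v
      dsimp only at huv
      split_ifs at huv <;> omega
    · intro u v huv
      have hne := hc u v huv
      have hm := hDm u v huv
      have hm' := hDm v u huv.symm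
      rw [mem_union, mem_image]
      have key : ∀ x y : ℤ, |x - y| ∈ D → (x - y ∈ D ∨ ∃ a ∈ D, -a = x - y) := by
        intro x y h
        rcases abs_choice (x - y) with e | e
        · left; rw [← e]; exact h
        · right; exact ⟨_, h, by rw [e]; ring⟩
      cases hcu : c u <;> cases hcv : c v
      · exact absurd (hcu.trans hcv.symm) hne
      · have e : (if false = true then f u + (M + 1) else -f u - (M + 1)) +
            (if true = true then f v + (M + 1) else -f v - (M + 1)) = f v - f u := by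
          simp; ring
        rw [e]; exact key _ _ hm'
      · have e : (if true = true then f u + (M + 1) else -f u - (M + 1)) +
            (if false = true then f v + (M + 1) else -f v - (M + 1)) = f u - f v := by
          simp; ring
        rw [e]; exact key _ _ hm
      · exact absurd (hcu.trans hcv.symm) hne
  have h2 := card_union_le D (D.image (fun x => -x))
  have h3 := card_image_le (s := D) (f := fun x : ℤ => -x)
  omega

/-- `df ≤ sm` -/
theorem df_le_sm (G : SimpleGraph V) (c : V → Bool) (hc : ∀ u v, G.Adj u v → c u ≠ c v) :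
    df G ≤ sm G := by
  classical
  obtain ⟨f, hf, S, hS, hSm⟩ := exists_sm G
  obtain ⟨M, hM0, hM⟩ := exists_bound f
  have h1 : df G ≤ (S.image (fun s => |s - (2 * M + 1)|)).card := by
    apply df_le_of G (fun v => if c v then f v else 2 * M + 1 - f v)
    · intro u v huv
      apply hf
      have hu := hM u
      have hv := hM v
      dsimp only at huv
      split_ifs at huv <;> omega
    · intro u v huv
      have hne := hc u v huv
      have hm := hSm u v huv
      rw [mem_image]
      refine ⟨_, hm, ?_⟩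
      cases hcu : c u <;> cases hcv : c v
      · exact absurd (hcu.trans hcv.symm) hne
      · rw [abs_sub_comm]
        simp only [if_true, Bool.false_eq_true, if_false]
        congr 1; ring
      · simp only [if_true, Bool.false_eq_true, if_false]
        congr 1; ring
      · exact absurd (hcu.trans hcv.symm) hne
  exact h1.trans (card_image_le.trans hS.le)

/-- **`df ≤ sm - 1` for bipartite graphs with `sm ≥ 2`.** -/
theorem df_lt_sm (G : SimpleGraph V) (c : V → Bool) (hc : ∀ u v, G.Adj u v → c u ≠ c v)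
    (h2 : 2 ≤ sm G) : df G + 1 ≤ sm G := by
  classical
  let P : ℕ → Prop := fun n => ∃ f : V → ℤ, Function.Injective f ∧ ∃ S : Finset ℤ,
    S.card = sm G ∧ (∀ u v, G.Adj u v → f u + f v ∈ S) ∧ ∃ a : ℤ, ∀ s ∈ S, a ≤ s ∧ s ≤ a + n
  have hP : ∃ n, P n := by
    obtain ⟨f, hf, S, hS, hSm⟩ := exists_sm G
    obtain ⟨M, hM0, hM⟩ := exists_boundF S
    refine ⟨(2 * M).toNat, f, hf, S, hS, hSm, -M, fun s hs => ?_⟩
    have := hM s hs
    omega
  obtain ⟨f, hf, S, hS, hSm, a, ha⟩ := Nat.find_spec hP
  set n := Nat.find hP with hn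
  by_cases h : ∃ s1 ∈ S, ∃ s2 ∈ S, (s1 - s2) % 2 = 1
  · obtain ⟨s1, hs1, s2, hs2, hodd⟩ := h
    have h1 : df G ≤ ((S.erase s2).image (fun s => |2 * s - (s1 + s2)|)).card := by
      apply df_le_of G (fun v => if c v then 2 * f v else (s1 + s2) - 2 * f v)
      · intro u v huv
        apply hf
        dsimp only at huv
        split_ifs at huv <;> omega
      · intro u v huv
        have hne := hc u v huv
        have hm := hSm u v huv
        have key : ∀ s ∈ S, |2 * s - (s1 + s2)| ∈
            (S.erase s2).image (fun s => |2 * s - (s1 + s2)|) := by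
          intro s hs
          rw [mem_image]
          by_cases hs' : s = s2
          · refine ⟨s1, ?_, ?_⟩
            · rw [mem_erase]
              exact ⟨by rintro rfl; omega, hs1⟩
            · rw [hs', abs_sub_comm]
              congr 1; ring
          · exact ⟨s, mem_erase.2 ⟨hs', hs⟩, rfl⟩
        have := key _ hm
        cases hcu : c u <;> cases hcv : c v
        · exact absurd (hcu.trans hcv.symm) hne
        · simp only [if_true, Bool.false_eq_true, if_false]
          rw [abs_sub_comm]
          convert this using 2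
          ring
        · simp only [if_true, Bool.false_eq_true, if_false]
          convert this using 2
          ring
        · exact absurd (hcu.trans hcv.symm) hne
    have h3 := card_image_le (s := S.erase s2) (f := fun s => |2 * s - (s1 + s2)|)
    rw [card_erase_of_mem hs2] at h3
    omega
  · exfalso
    push Not at h
    obtain ⟨t1, ht1, t2, ht2, ht12⟩ : ∃ t1 ∈ S, ∃ t2 ∈ S, t1 ≠ t2 := by
      have : 1 < S.card := by omega
      rw [Finset.one_lt_card] at this
      exact this
    obtain ⟨M, hM0, hM⟩ := exists_bound f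
    obtain ⟨ε, hε⟩ : ∃ ε : ℤ, ε = t1 % 2 := ⟨_, rfl⟩
    have hpar : ∀ s ∈ S, (s - ε) % 2 = 0 := by
      intro s hs
      have := h s hs t1 ht1
      omega
    let g : V → ℤ := fun v => if c v then
      f v / 2 + (if f v % 2 = 1 then 4 * M + 8 else 0) + (8 * M + 16)
      else (f v - ε + 1) / 2 - (if (f v - ε) % 2 = 1 then 4 * M + 8 else 0) - (8 * M + 16)
    have hg : Function.Injective g := by
      intro u v huv
      apply hf
      have hu := hM u
      have hv := hM v
      simp only [g] at huv
      split_ifs at huv <;> omega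
    have hsum : ∀ u v, G.Adj u v → g u + g v ∈ S.image (fun s => (s - ε) / 2) := by
      intro u v huv
      have hne := hc u v huv
      have hm := hSm u v huv
      have hp := hpar _ hm
      rw [mem_image]
      refine ⟨_, hm, ?_⟩
      simp only [g]
      cases hcu : c u <;> cases hcv : c v
      · exact absurd (hcu.trans hcv.symm) hne
      · simp only [if_true, Bool.false_eq_true, if_false]
        split_ifs <;> omega
      · simp only [if_true, Bool.false_eq_true, if_false]
        split_ifs <;> omega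
      · exact absurd (hcu.trans hcv.symm) hne
    have hcard : (S.image (fun s => (s - ε) / 2)).card = sm G := by
      apply le_antisymm
      · exact card_image_le.trans hS.le
      · exact sm_le_of G g hg _ hsum
    have hPn : P (n / 2) := by
      refine ⟨g, hg, _, hcard, hsum, (a - ε + 1) / 2, ?_⟩
      intro s hs
      rw [mem_image] at hs
      obtain ⟨s', hs', rfl⟩ := hs
      have h4 := ha s' hs'
      have h5 := hpar s' hs'
      push_cast
      omega
    have h6 : n ≤ n / 2 := Nat.find_min' hP hPn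
    have h7 := ha t1 ht1
    have h8 := ha t2 ht2
    omega

end general

/-! ### Adding a star -/

/-- the disjoint union of `G` and the star with `n` leaves -/
def addStar {V : Type} (G : SimpleGraph V) (n : ℕ) : SimpleGraph (V ⊕ Option (Fin n)) where
  Adj
    | .inl a, .inl b => G.Adj a b
    | .inr none, .inr (some _) => True
    | .inr (some _), .inr none => True
    | _, _ => False
  symm := ⟨fun x y h => by
    match x, y, h with
    | .inl _, .inl _, h => exact h.symm
    | .inr none, .inr (some _), _ => trivial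
    | .inr (some _), .inr none, _ => trivial⟩
  loopless := ⟨fun x h => by
    match x, h with
    | .inl a, h => exact G.loopless.irrefl a h⟩

/-- the labelling of `addStar G n` -/
def starLab {V : Type} {n : ℕ} (f : V → ℤ) (T : ℤ) (e : Fin n → ℤ) : V ⊕ Option (Fin n) → ℤ
  | .inl v => f v
  | .inr none => T
  | .inr (some i) => e i

theorem starLab_inj {V : Type} {n : ℕ} (f : V → ℤ) (T : ℤ) (e : Fin n → ℤ)
    (hf : Function.Injective f) (he : Function.Injective e) (h1 : ∀ v, f v ≠ T)
    (h2 : ∀ v i, f v ≠ e i) (h3 : ∀ i, e i ≠ T) : Function.Injective (starLab f T e) := by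
  intro x y h
  match x, y, h with
  | .inl u, .inl v, h => exact congrArg _ (hf h)
  | .inl u, .inr none, h => exact absurd h (h1 u)
  | .inl u, .inr (some i), h => exact absurd h (h2 u i)
  | .inr none, .inl v, h => exact absurd h.symm (h1 v)
  | .inr none, .inr none, h => rfl
  | .inr none, .inr (some i), h => exact absurd h.symm (h3 i)
  | .inr (some i), .inl v, h => exact absurd h.symm (h2 v i)
  | .inr (some i), .inr none, h => exact absurd h (h3 i)
  | .inr (some i), .inr (some j), h => exact congrArg _ (congrArg _ (he h))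

theorem addStar_sums {V : Type} (G : SimpleGraph V) (n : ℕ) (f : V → ℤ) (T : ℤ) (e : Fin n → ℤ)
    (S : Finset ℤ) (hS : ∀ u v, G.Adj u v → f u + f v ∈ S) (hT : ∀ i, T + e i ∈ S) :
    ∀ x y, (addStar G n).Adj x y → starLab f T e x + starLab f T e y ∈ S := by
  intro x y h
  match x, y, h with
  | .inl u, .inl v, h => exact hS u v h
  | .inr none, .inr (some i), _ => exact hT i
  | .inr (some i), .inr none, _ =>
    have := hT i
    rw [add_comm] at this
    exact this

theorem addStar_diffs {V : Type} (G : SimpleGraph V) (n : ℕ) (f : V → ℤ) (T : ℤ) (e : Fin n → ℤ)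
    (S : Finset ℤ) (hS : ∀ u v, G.Adj u v → |f u - f v| ∈ S) (hT : ∀ i, |T - e i| ∈ S) :
    ∀ x y, (addStar G n).Adj x y → |starLab f T e x - starLab f T e y| ∈ S := by
  intro x y h
  match x, y, h with
  | .inl u, .inl v, h => exact hS u v h
  | .inr none, .inr (some i), _ => exact hT i
  | .inr (some i), .inr none, _ =>
    have := hT i
    rw [abs_sub_comm] at this
    exact this

/-- an injective enumeration of a finite set -/
theorem exists_enum (S : Finset ℤ) (n : ℕ) (h : S.card = n) :
    ∃ e : Fin n → ℤ, Function.Injective e ∧ ∀ i, e i ∈ S :=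
  ⟨fun i => S.orderEmbOfFin h i, (S.orderEmbOfFin h).injective,
    fun i => S.orderEmbOfFin_mem h i⟩

theorem addStar_sm {V : Type} [Fintype V] (G : SimpleGraph V) (n : ℕ) (h : sm G ≤ n) :
    sm (addStar G n) = n := by
  classical
  apply le_antisymm
  · obtain ⟨f, hf, S, hS, hSm⟩ := exists_sm G
    obtain ⟨S', hSS, hS'⟩ := Infinite.exists_superset_card_eq S n (by omega)
    obtain ⟨e, he, heS⟩ := exists_enum S' n hS'
    obtain ⟨M, hM0, hM⟩ := exists_bound f
    obtain ⟨M', hM0', hM'⟩ := exists_boundF S'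
    refine le_trans ?_ hS'.le
    apply sm_le_of _ (starLab f (M + M' + 1) (fun i => e i - (M + M' + 1)))
    · apply starLab_inj _ _ _ hf
      · intro i j hij
        apply he
        dsimp only at hij
        omega
      · intro v
        have := hM v
        omega
      · intro v i
        have := hM v
        have := hM' _ (heS i)
        omega
      · intro i
        have := hM' _ (heS i)
        omega
    · apply addStar_sums
      · intro u v huv
        exact hSS (hSm u v huv)
      · intro i
        have : M + M' + 1 + (e i - (M + M' + 1)) = e i := by ring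
        rw [this]
        exact heS i
  · apply le_sm_of
    intro f hf
    have hinj : Function.Injective (fun i : Fin n => f (.inr none) + f (.inr (some i))) := by
      intro i j hij
      have : f (.inr (some i)) = f (.inr (some j)) := by
        dsimp only at hij
        omega
      have := hf this
      simpa using this
    have h1 : (Set.range (fun i : Fin n => f (.inr none) + f (.inr (some i)))).ncard = n := by
      rw [← Set.image_univ, Set.ncard_image_of_injective _ hinj, Set.ncard_univ]
      simp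
    refine h1.symm.le.trans ?_
    apply Set.ncard_le_ncard _ (sumSet_finite _ _)
    rintro s ⟨i, rfl⟩
    exact ⟨.inr none, .inr (some i), trivial, rfl⟩

theorem addStar_df {V : Type} [Fintype V] (G : SimpleGraph V) (n : ℕ) (h : n ≤ 2 * df G) :
    df (addStar G n) = df G := by
  classical
  apply le_antisymm
  · obtain ⟨f, hf, D, hD, hpos, hDm⟩ := exists_df G
    have hE : (D ∪ D.image (fun x => -x)).card = 2 * df G := by
      rw [card_union_of_disjoint, card_image_of_injective _ neg_injective]
      · omega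
      · rw [disjoint_left]
        intro x hx hx'
        rw [mem_image] at hx'
        obtain ⟨y, hy, rfl⟩ := hx'
        have := hpos _ hx
        have := hpos _ hy
        omega
    obtain ⟨E, hEs, hEc⟩ := exists_subset_card_eq (s := D ∪ D.image (fun x => -x)) (n := n)
      (by omega)
    obtain ⟨e, he, heE⟩ := exists_enum E n hEc
    obtain ⟨M, hM0, hM⟩ := exists_bound f
    obtain ⟨M', hM0', hM'⟩ := exists_boundF E
    have habs : ∀ i, |e i| ∈ D ∧ e i ≠ 0 := by
      intro i
      have h1 := hEs (heE i)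
      rw [mem_union, mem_image] at h1
      rcases h1 with h1 | ⟨y, hy, h1⟩
      · have := hpos _ h1
        rw [abs_of_pos this]
        exact ⟨h1, by omega⟩
      · have := hpos _ hy
        have h2 : |e i| = y := by
          rw [← h1, abs_neg, abs_of_pos this]
        rw [h2]
        exact ⟨hy, by omega⟩
    rw [← hD]
    apply df_le_of _ (starLab f (M + M' + 1) (fun i => (M + M' + 1) - e i))
    · apply starLab_inj _ _ _ hf
      · intro i j hij
        apply he
        dsimp only at hij
        omega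
      · intro v
        have := hM v
        omega
      · intro v i
        have := hM v
        have := hM' _ (heE i)
        omega
      · intro i
        have := (habs i).2
        omega
    · apply addStar_diffs
      · exact hDm
      · intro i
        have : M + M' + 1 - (M + M' + 1 - e i) = e i := by ring
        rw [this]
        exact (habs i).1
  · apply le_df_of
    intro f hf
    have h1 : df G ≤ (diffSet G (fun v => f (.inl v))).ncard :=
      Nat.sInf_le ⟨_, fun u v huv => by simpa using hf huv, rfl⟩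
    refine h1.trans (Set.ncard_le_ncard ?_ (diffSet_finite _ _))
    rintro s ⟨u, v, huv, rfl⟩
    exact ⟨.inl u, .inl v, huv, rfl⟩

theorem addStar_bip {V : Type} (G : SimpleGraph V) (n : ℕ) (c : V → Bool)
    (hc : ∀ u v, G.Adj u v → c u ≠ c v) :
    ∃ c' : V ⊕ Option (Fin n) → Bool, ∀ u v, (addStar G n).Adj u v → c' u ≠ c' v := by
  refine ⟨fun x => match x with
    | .inl v => c v
    | .inr none => true
    | .inr (some _) => false, ?_⟩
  intro x y h
  match x, y, h with
  | .inl u, .inl v, h => exact hc u v h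
  | .inr none, .inr (some i), _ => exact Bool.noConfusion
  | .inr (some i), .inr none, _ => exact Bool.noConfusion

/-! ### The set of pairs -/

/-- the one-edge graph has `sm = df = 1` -/
theorem top_two : sm (⊤ : SimpleGraph Bool) = 1 ∧ df (⊤ : SimpleGraph Bool) = 1 := by
  have hadj : ∃ u v, (⊤ : SimpleGraph Bool).Adj u v := ⟨false, true, by simp⟩
  have hc : ∀ u v, (⊤ : SimpleGraph Bool).Adj u v → (id u : Bool) ≠ id v := fun u v h => by
    simpa using h
  have h1 : sm (⊤ : SimpleGraph Bool) ≤ 1 := by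
    have := sm_le_of (⊤ : SimpleGraph Bool) (fun b => if b then 1 else 0) (by
      intro u v h
      cases u <;> cases v <;> simp_all) {1} (by
      intro u v h
      cases u <;> cases v <;> simp_all)
    simpa using this
  have h2 := one_le_sm _ hadj
  have h3 := one_le_df _ hadj
  have h4 := df_le_sm _ id hc
  omega

/-- For every `d ≥ 1` there is a bipartite graph with `sm ≤ d + 1` and `df = d`. -/
theorem exists_base (d : ℕ) (hd : 1 ≤ d) : ∃ (V : Type) (_ : Fintype V) (G : SimpleGraph V),
    (∃ c : V → Bool, ∀ u v, G.Adj u v → c u ≠ c v) ∧ sm G ≤ d + 1 ∧ df G = d := by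
  have hc : ∀ u v, (Gr d ((7 * d) ^ d)).Adj u v → u.2 ≠ v.2 := by
    rintro u v (⟨h1, h2, _⟩ | ⟨h1, h2, _⟩) <;> simp [h1, h2]
  refine ⟨_, inferInstance, Gr d ((7 * d) ^ d), ⟨fun x => x.2, hc⟩, sm_le _ _, ?_⟩
  have h1 := sm_le d ((7 * d) ^ d)
  have h2 := df_ge hd
  rcases Nat.lt_or_ge (sm (Gr d ((7 * d) ^ d))) 2 with h3 | h3
  · have := df_le_sm (Gr d ((7 * d) ^ d)) (fun x => x.2) hc
    omega
  · have := df_lt_sm (Gr d ((7 * d) ^ d)) (fun x => x.2) hc h3
    omega

/-- **The pairs `(sm, df)` of bipartite graphs.** -/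
theorem pairs (s d : ℕ) : (∃ (V : Type) (_ : Fintype V) (G : SimpleGraph V),
    (∃ c : V → Bool, ∀ u v, G.Adj u v → c u ≠ c v) ∧ (∃ u v, G.Adj u v) ∧ sm G = s ∧ df G = d) ↔
    (s = 1 ∧ d = 1) ∨ (s ≤ 2 * d ∧ d + 1 ≤ s) := by
  constructor
  · rintro ⟨V, _, G, ⟨c, hc⟩, hG, rfl, rfl⟩
    have h1 := one_le_sm G hG
    have h2 := one_le_df G hG
    have h3 := sm_le_two_df G c hc
    rcases Nat.lt_or_ge (sm G) 2 with h | h
    · have := df_le_sm G c hc
      left; omega
    · have := df_lt_sm G c hc h
      right; omega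
  · rintro (⟨rfl, rfl⟩ | ⟨h1, h2⟩)
    · exact ⟨Bool, inferInstance, ⊤, ⟨id, fun u v h => by simpa using h⟩,
        ⟨false, true, by simp⟩, top_two.1, top_two.2⟩
    · obtain ⟨V, _, G, ⟨c, hc⟩, h3, h4⟩ := exists_base d (by omega)
      refine ⟨_, inferInstance, addStar G s, addStar_bip G s c hc, ?_, addStar_sm G s (by omega),
        ?_⟩
      · exact ⟨.inr none, .inr (some ⟨0, by omega⟩), trivial⟩
      · rw [addStar_df G s (by omega), h4]

theorem bip_iff {V : Type} (G : SimpleGraph V) :
    G.IsBipartite ↔ ∃ c : V → Bool, ∀ u v, G.Adj u v → c u ≠ c v := by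
  classical
  constructor
  · rintro ⟨C⟩
    refine ⟨fun v => decide (C v = 1), fun u v huv h => ?_⟩
    have h1 : C u ≠ C v := C.valid huv
    have h2 : (C u = 1 ↔ C v = 1) := by simpa using h
    apply h1
    by_cases h3 : C u = 1
    · rw [h3, h2.1 h3]
    · have h4 : C v ≠ 1 := fun e => h3 (h2.2 e)
      omega
  · rintro ⟨c, hc⟩
    refine ⟨SimpleGraph.Coloring.mk (fun v => if c v then (1 : Fin 2) else 0) ?_⟩
    intro u v huv h
    apply hc u v huv
    cases hu : c u <;> cases hv : c v <;> simp_all

theorem ceil_half (n : ℕ) : ⌈(n : ℚ) / 2⌉ = (n : ℤ) - (n / 2 : ℕ) := by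
  obtain ⟨k, hk⟩ : ∃ k, n / 2 = k := ⟨_, rfl⟩
  rw [hk, Int.ceil_eq_iff]
  have h : n = 2 * k ∨ n = 2 * k + 1 := by omega
  rcases h with rfl | rfl
  · constructor <;> push_cast <;> linarith
  · constructor <;> push_cast <;> linarith

end Pool.Agent.KS6_72.SumDiff
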